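import Pool.Agent.LPR.Stmts

/-!
# Squad LPR, row CLO: l-embedded sets are closed (second proof)
-/

set_option autoImplicit false

open Set Topology

namespace Pool.Agent.LPR.H4

open Pool.Agent.LSG Pool.Agent.LPR

theorem clo : CloStmt := by
  intro X _ _ A hA
  obtain ⟨φ, -, hφ⟩ := hA
  let _ := TopologicalSpace.metrizableSpaceMetric X
  rw [← closure_subset_iff_isClosed]
  intro x hx
  by_contra hxA
  have hne : ∀ a : A, dist a.1 x ≠ 0 := fun a h => hxA (by
    rw [← dist_eq_zero.1 h]; exact a.2)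
  let f : C(A, ℝ) := ⟨fun a => (dist a.1 x)⁻¹,
    (continuous_subtype_val.dist continuous_const).inv₀ hne⟩
  have h1 : ∀ᶠ y in 𝓝 x, |φ f y| < |φ f x| + 1 :=
    (continuous_abs.comp (φ f).continuous).continuousAt.eventually
      (gt_mem_nhds (show |φ f x| < |φ f x| + 1 by linarith))
  have hC : (0 : ℝ) < |φ f x| + 1 := by positivity
  have h2 : ∀ᶠ y in 𝓝 x, dist y x < (|φ f x| + 1)⁻¹ :=
    Metric.ball_mem_nhds x (by positivity)
  have h3 : ∃ᶠ y in 𝓝 x, y ∈ A := mem_closure_iff_frequently.1 hx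
  obtain ⟨y, hyA, hy1, hy2⟩ := (h3.and_eventually (h1.and h2)).exists
  have h4 : φ f y = (dist y x)⁻¹ := hφ f ⟨y, hyA⟩
  have h5 : 0 < dist y x := lt_of_le_of_ne dist_nonneg (Ne.symm (hne ⟨y, hyA⟩))
  have h6 : |φ f x| + 1 < (dist y x)⁻¹ := by
    rw [lt_inv_comm₀ hC h5]
    exact hy2
  rw [h4, abs_of_pos (inv_pos.2 h5)] at hy1
  linarith

end Pool.Agent.LPR.H4
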