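import Pool.Agent.LPR.Stmts

/-!
# Squad LPR, row REP: the projection (second proof)
-/

set_option autoImplicit false

open Set Topology
open scoped BigOperators

namespace Pool.Agent.LPR.H4

open Pool.Agent.LSG Pool.Agent.LPR

theorem rep : RepStmt := by
  classical
  intro S _ O ρ χ a b w hP hS g hg
  obtain ⟨hgc, hg0⟩ := hg
  have ptc : Continuous pt := continuous_projIcc (h := zero_le_one)
  let ca : ℕ × ℕ → OnePoint ℕ → ℝ := fun α q => OnePoint.elim q (sg α.1 α.2) (fun n => a α.1 α.2 n)
  let cb : ℕ × ℕ → OnePoint ℕ → ℝ := fun α q => OnePoint.elim q 0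
    (fun n => b α.1 α.2 n - a α.1 α.2 n)
  let pu : ℕ × ℕ → (S × unitInterval) × OnePoint ℕ → ℝ := fun α z =>
    ca α z.2 + (z.1.2 : ℝ) * cb α z.2
  let D : ℕ × ℕ → (S × unitInterval) × OnePoint ℕ → ℝ := fun α z =>
    g (z.1.1, pt (pu α z)) - g (z.1.1, pt (sg α.1 α.2))
  have hlim : ∀ α : ℕ × ℕ, Filter.Tendsto
      (fun n : ℕ => (1 / 2 : ℝ) ^ (α.1 + 12) / ((n : ℝ) + 1)) Filter.atTop (𝓝 0) := by
    intro α
    have h1 := tendsto_one_div_add_atTop_nhds_zero_nat (𝕜 := ℝ)
    have h2 := h1.const_mul ((1 / 2 : ℝ) ^ (α.1 + 12))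
    rw [mul_zero] at h2
    refine h2.congr (fun n => ?_)
    ring
  have hca : ∀ α, Continuous (ca α) := by
    intro α
    rw [OnePoint.continuous_iff_from_nat]
    show Filter.Tendsto (fun n : ℕ => a α.1 α.2 n) Filter.atTop (𝓝 (sg α.1 α.2))
    have h1 : Filter.Tendsto (fun n : ℕ => a α.1 α.2 n - sg α.1 α.2) Filter.atTop (𝓝 0) := by
      refine squeeze_zero (fun n => ?_) (fun n => ?_) (hlim α)
      · have := (hS.ord α.1 α.2 n).1
        linarith
      · have := (hS.ord α.1 α.2 n).2
        have := hS.bd α.1 α.2 n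
        linarith
    have h2 := h1.add_const (sg α.1 α.2)
    rw [zero_add] at h2
    refine h2.congr (fun n => ?_)
    ring
  have hcb : ∀ α, Continuous (cb α) := by
    intro α
    rw [OnePoint.continuous_iff_from_nat]
    show Filter.Tendsto (fun n : ℕ => b α.1 α.2 n - a α.1 α.2 n) Filter.atTop (𝓝 0)
    refine squeeze_zero (fun n => ?_) (fun n => ?_) (hlim α)
    · have := (hS.ord α.1 α.2 n).2
      linarith
    · have := (hS.ord α.1 α.2 n).1
      have := hS.bd α.1 α.2 n
      linarith
  have hpu : ∀ α, Continuous (pu α) := by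
    intro α
    have h1 : Continuous fun z : (S × unitInterval) × OnePoint ℕ => ca α z.2 :=
      (hca α).comp continuous_snd
    have h2 : Continuous fun z : (S × unitInterval) × OnePoint ℕ => cb α z.2 :=
      (hcb α).comp continuous_snd
    have h3 : Continuous fun z : (S × unitInterval) × OnePoint ℕ => (z.1.2 : ℝ) :=
      continuous_subtype_val.comp (continuous_snd.comp continuous_fst)
    exact h1.add (h3.mul h2)
  have hDc : ∀ α, Continuous (D α) := by
    intro α
    have h1 : Continuous fun z : (S × unitInterval) × OnePoint ℕ => (z.1.1, pt (pu α z)) :=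
      (continuous_fst.comp continuous_fst).prodMk (ptc.comp (hpu α))
    have h2 : Continuous fun z : (S × unitInterval) × OnePoint ℕ =>
        (z.1.1, pt (sg α.1 α.2)) :=
      (continuous_fst.comp continuous_fst).prodMk continuous_const
    exact (hgc.comp h1).sub (hgc.comp h2)
  -- bound of pu
  have hpb : ∀ α z, sg α.1 α.2 ≤ pu α z ∧ pu α z ≤ sg α.1 α.2 + (1 / 2 : ℝ) ^ (α.1 + 12) := by
    intro α z
    obtain ⟨x, q⟩ := z
    have hx0 := x.2.2.1
    have hx1 := x.2.2.2
    induction q using OnePoint.rec with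
    | infty =>
      have e : pu α (x, OnePoint.infty) = sg α.1 α.2 + (x.2 : ℝ) * 0 := rfl
      rw [e, mul_zero, add_zero]
      have : (0 : ℝ) ≤ (1 / 2 : ℝ) ^ (α.1 + 12) := by positivity
      exact ⟨le_refl _, by linarith⟩
    | coe n =>
      have e : pu α (x, ((n : ℕ) : OnePoint ℕ)) = a α.1 α.2 n +
          (x.2 : ℝ) * (b α.1 α.2 n - a α.1 α.2 n) := rfl
      rw [e]
      have h1 := (hS.ord α.1 α.2 n).1
      have h2 := (hS.ord α.1 α.2 n).2
      have h3 := hS.bd α.1 α.2 n
      have h4 : (1 / 2 : ℝ) ^ (α.1 + 12) / ((n : ℝ) + 1) ≤ (1 / 2 : ℝ) ^ (α.1 + 12) := by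
        apply div_le_self (by positivity)
        have : (0 : ℝ) ≤ n := Nat.cast_nonneg n
        linarith
      constructor
      · nlinarith
      · nlinarith
  let G : (S × unitInterval) × OnePoint ℕ → ℝ := fun z => ∑ᶠ α : ℕ × ℕ, χ α.1 α.2 z.1 * D α z
  have hoff : ∀ x, x ∉ O → ∀ m k, χ m k x = 0 := by
    intro x hx m k
    by_contra hne
    obtain ⟨-, h1, -⟩ := hP.supp m k x hne
    apply hx
    rw [← hP.zero x]
    intro h0
    rw [h0] at h1
    exact absurd h1 (not_lt.2 (by positivity))
  have hGoff : ∀ x, x ∉ O → ∀ q, G (x, q) = 0 := by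
    intro x hx q
    show ∑ᶠ α : ℕ × ℕ, χ α.1 α.2 x * D α (x, q) = 0
    have h1 : ∀ α : ℕ × ℕ, χ α.1 α.2 x * D α (x, q) = 0 := fun α => by
      rw [hoff x hx, zero_mul]
    rw [finsum_congr h1, finsum_zero]
  refine ⟨G, ⟨?_, hGoff, ?_⟩, ?_⟩
  · refine continuous_iff_continuousAt.2 fun z₀ => ?_
    obtain ⟨x₀, q₀⟩ := z₀
    by_cases hx : x₀ ∈ O
    · have hr : 0 < ρ x₀ := lt_of_le_of_ne (hP.nonneg x₀) (Ne.symm ((hP.zero x₀).2 hx))
      obtain ⟨M, hM⟩ := exists_pow_lt_of_lt_one (show (0 : ℝ) < ρ x₀ / 4 by positivity)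
        (show (1 / 2 : ℝ) < 1 by norm_num)
      have hc : Continuous fun z : (S × unitInterval) × OnePoint ℕ =>
          ∑ α ∈ Finset.range M ×ˢ Finset.range (2 ^ (M + 4)), χ α.1 α.2 z.1 * D α z :=
        continuous_finsetSum _ fun α _ =>
          ((χ α.1 α.2).continuous.comp continuous_fst).mul (hDc α)
      refine hc.continuousAt.congr ?_
      have e2 : ∀ᶠ z : (S × unitInterval) × OnePoint ℕ in 𝓝 (x₀, q₀), ρ x₀ / 2 < ρ z.1 :=
        (ρ.continuous.comp continuous_fst).continuousAt.eventually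
          (lt_mem_nhds (show ρ x₀ / 2 < ρ x₀ by linarith))
      filter_upwards [e2] with z hz
      symm
      apply finsum_eq_sum_of_support_subset
      intro α hα
      have hne : χ α.1 α.2 z.1 ≠ 0 := left_ne_zero_of_mul hα
      obtain ⟨h1, h2, h3, -⟩ := hP.supp α.1 α.2 z.1 hne
      have hm : α.1 < M := by
        by_contra hcon
        have h5 : (1 / 2 : ℝ) ^ α.1 ≤ (1 / 2 : ℝ) ^ M :=
          pow_le_pow_of_le_one (by norm_num) (by norm_num) (not_lt.1 hcon)
        linarith
      have hk : α.2 < 2 ^ (M + 4) :=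
        lt_of_lt_of_le h1 (Nat.pow_le_pow_right (by norm_num) (by omega))
      rw [Finset.mem_coe, Finset.mem_product, Finset.mem_range, Finset.mem_range]
      exact ⟨hm, hk⟩
    · refine Metric.tendsto_nhds.2 fun ε hε => ?_
      have hρ0 : ρ x₀ = 0 := by
        by_contra hne
        exact hx ((hP.zero x₀).1 hne)
      have h1 : ∀ᶠ y in 𝓝 x₀, |g y| < ε / 9 := by
        have h0 : |g x₀| < ε / 9 := by
          rw [hg0 x₀ hx, abs_zero]
          positivity
        exact (continuous_abs.comp hgc).continuousAt.eventually (gt_mem_nhds h0)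
      obtain ⟨A, hA, B, hB, hAB⟩ := mem_nhds_prod_iff.1 h1
      obtain ⟨δ, hδ, hδB⟩ := Metric.mem_nhds_iff.1 hB
      have e1 : ∀ᶠ z : (S × unitInterval) × OnePoint ℕ in 𝓝 (x₀, q₀), z.1.1 ∈ A :=
        (continuous_fst.comp continuous_fst).continuousAt.eventually hA
      have e2 : ∀ᶠ z : (S × unitInterval) × OnePoint ℕ in 𝓝 (x₀, q₀), ρ z.1 < δ / 2 :=
        (ρ.continuous.comp continuous_fst).continuousAt.eventually
          (gt_mem_nhds (show ρ x₀ < δ / 2 by rw [hρ0]; positivity))
      have e3 : ∀ᶠ z : (S × unitInterval) × OnePoint ℕ in 𝓝 (x₀, q₀),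
          dist z.1.2 x₀.2 < δ / 2 :=
        ((continuous_snd.comp continuous_fst).continuousAt
          (x := ((x₀, q₀) : (S × unitInterval) × OnePoint ℕ))).eventually
          (Metric.ball_mem_nhds _ (by positivity))
      filter_upwards [e1, e2, e3] with z hz1 hz2 hz3
      obtain ⟨x, q⟩ := z
      rw [hGoff x₀ hx q₀, Real.dist_eq, sub_zero]
      by_cases hxO : x ∈ O
      · obtain ⟨T, hT, hT1, -⟩ := hP.cover x hxO
        have hGe : G (x, q) = ∑ α ∈ T, χ α.1 α.2 x * D α (x, q) := by
          apply finsum_eq_sum_of_support_subset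
          intro α hα
          exact hT1 α.1 α.2 (left_ne_zero_of_mul hα)
        rw [hGe]
        have hb : ∀ α ∈ T, |χ α.1 α.2 x * D α (x, q)| ≤ 2 * (ε / 9) := by
          intro α _
          by_cases hne : χ α.1 α.2 x = 0
          · rw [hne, zero_mul, abs_zero]
            positivity
          · obtain ⟨-, g1, -, g3⟩ := hP.supp α.1 α.2 x hne
            have c1 := hP.chi01 α.1 α.2 x
            have hp1 : (1 / 2 : ℝ) ^ (α.1 + 3) = (1 / 2 : ℝ) ^ α.1 / 8 := by
              rw [pow_add]; norm_num; ring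
            have hp2 : (1 / 2 : ℝ) ^ (α.1 + 12) = (1 / 2 : ℝ) ^ α.1 / 4096 := by
              rw [pow_add]; norm_num; ring
            have hp3 : (1 / 2 : ℝ) ^ (α.1 + 1) = (1 / 2 : ℝ) ^ α.1 / 2 := by
              rw [pow_add]; norm_num; ring
            have hp4 : (0 : ℝ) < (1 / 2 : ℝ) ^ α.1 := by positivity
            have key : ∀ t : ℝ, sg α.1 α.2 ≤ t → t ≤ sg α.1 α.2 + (1 / 2 : ℝ) ^ (α.1 + 12) →
                |g (x.1, pt t)| < ε / 9 := by
              intro t ht1 ht2
              have h5 : |(x.2 : ℝ) - t| < δ / 2 := by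
                rw [hp1] at g3
                rw [hp2] at ht2
                rw [hp3] at g1
                have g2 : ρ x < δ / 2 := hz2
                rw [abs_lt] at g3 ⊢
                constructor <;> linarith [g3.1, g3.2]
              have h6 : dist (pt t) x.2 < δ / 2 := by
                have h7 : dist (pt t) x.2 ≤ |t - (x.2 : ℝ)| := by
                  have h8 : x.2 = pt (x.2 : ℝ) := by
                    rw [pt, Set.projIcc_of_mem zero_le_one x.2.2]
                  have h9 := abs_projIcc_sub_projIcc (h := (zero_le_one : (0 : ℝ) ≤ 1)) (c := t)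
                    (d := (x.2 : ℝ))
                  rw [Subtype.dist_eq, Real.dist_eq]
                  rw [show (x.2 : ℝ) = ((pt (x.2 : ℝ) : unitInterval) : ℝ) from
                    congrArg Subtype.val h8] 
                  refine le_trans h9 ?_
                  exact le_of_eq (by rw [← h8])
                rw [abs_sub_comm] at h5
                linarith
              have h8 := dist_triangle (pt t) x.2 x₀.2
              have hz3' : dist x.2 x₀.2 < δ / 2 := hz3
              have h9 : (x.1, pt t) ∈ A ×ˢ B := ⟨hz1, hδB (by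
                rw [Metric.mem_ball]; linarith)⟩
              exact hAB h9
            have k1 := key (pu α (x, q)) (hpb α (x, q)).1 (hpb α (x, q)).2
            have k2 := key (sg α.1 α.2) (le_refl _) (by linarith)
            have k3 : |D α (x, q)| ≤ 2 * (ε / 9) := by
              show |g (x.1, pt (pu α (x, q))) - g (x.1, pt (sg α.1 α.2))| ≤ _
              rw [abs_lt] at k1 k2
              rw [abs_le]
              constructor <;> linarith [k1.1, k1.2, k2.1, k2.2]
            rw [abs_mul, abs_of_nonneg c1.1]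
            calc χ α.1 α.2 x * |D α (x, q)| ≤ 1 * |D α (x, q)| :=
                  mul_le_mul_of_nonneg_right c1.2 (abs_nonneg _)
              _ ≤ 2 * (ε / 9) := by rw [one_mul]; exact k3
        calc |∑ α ∈ T, χ α.1 α.2 x * D α (x, q)|
            ≤ ∑ α ∈ T, |χ α.1 α.2 x * D α (x, q)| := Finset.abs_sum_le_sum_abs _ _
          _ ≤ ∑ α ∈ T, 2 * (ε / 9) := Finset.sum_le_sum hb
          _ = (T.card : ℝ) * (2 * (ε / 9)) := by rw [Finset.sum_const, nsmul_eq_mul]
          _ ≤ 4 * (2 * (ε / 9)) := by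
              apply mul_le_mul_of_nonneg_right _ (by positivity)
              exact_mod_cast hT
          _ < ε := by linarith
      · rw [hGoff x hxO q, abs_zero]
        exact hε
  · intro x
    show ∑ᶠ α : ℕ × ℕ, χ α.1 α.2 x * D α (x, OnePoint.infty) = 0
    have h1 : ∀ α : ℕ × ℕ, χ α.1 α.2 x * D α (x, OnePoint.infty) = 0 := fun α => by
      have h2 : pu α (x, OnePoint.infty) = sg α.1 α.2 := by
        show sg α.1 α.2 + (x.2 : ℝ) * 0 = _
        rw [mul_zero, add_zero]
      show χ α.1 α.2 x * (g (x.1, pt (pu α (x, OnePoint.infty))) -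
        g (x.1, pt (sg α.1 α.2))) = 0
      rw [h2, sub_self, mul_zero]
    rw [finsum_congr h1, finsum_zero]
  · intro x n
    rfl

end Pool.Agent.LPR.H4
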